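import Pool.Agent.TH573.SM.Thk
import Pool.Agent.H220M.Fin9
import Pool.Agent.H220M.M1
import Pool.Agent.H220M.M2
import Pool.Agent.H220M.M3
import Pool.Agent.H220M.M4a
import Pool.Agent.H220M.M4
import Pool.Agent.H220M.M5
import Pool.Agent.H220M.M6a
import Pool.Agent.H220M.M6b
import Pool.Agent.H220M.M6
import Pool.Agent.H220M.P2

/-!
Chowla's conjecture for all polynomials, for almost every modification on the set `sparse`.
-/

set_option autoImplicit false

namespace Pool.Agent.TH573.SM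

open Polynomial Finset Filter MeasureTheory
open Pool.Agent.H220M

theorem eval_reduce (f : ℕ →*₀ ℤ) (u : ℕ → ℤˣ) (h : ∀ m : ℕ, m ≠ 0 → f m = ((u m : ℤˣ) : ℤ))
    (P H : ℤ[X]) (k : ℕ) (n : ℤ) :
    f ((P ^ (2 * k + 1) * H).eval n).natAbs = f ((P * H).eval n).natAbs := by
  rw [eval_mul, eval_mul, eval_pow, Int.natAbs_mul, Int.natAbs_mul, Int.natAbs_pow, map_mul,
    map_mul, map_pow]
  by_cases h0 : (P.eval n).natAbs = 0
  · rw [h0, map_zero, zero_pow (by omega)]
  · congr 1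
    rw [h _ h0, pow_succ, pow_mul]
    rcases Int.units_eq_one_or (u (P.eval n).natAbs) with h1 | h1 <;> rw [h1] <;> simp

theorem main (g : ℕ →*₀ ℤ) (hg : ∀ p : ℕ, p.Prime → g p = 1 ∨ g p = -1)
    (v : ℕ → ℕ → ℝ) (hv : ∀ s n, |v s n| ≤ 1) :
    ∀ᵐ ω ∂coins, ∃! f : ℕ →*₀ ℤ, IsModif g sparse ω f ∧
      ∀ F : ℤ[X], (¬ ∃ (c : ℤ) (G : ℤ[X]), F = C c * G ^ 2) → ∀ s a b : ℕ,
        Tendsto (fun x : ℕ => (∑ n ∈ (Icc 1 x).filter (fun n => n ≡ a [MOD b]), v s n *
          ((f (F.eval (n : ℤ)).natAbs : ℤ) : ℝ)) / x) atTop (nhds 0) := by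
  classical
  have hM6 : StmM6 := tM6 tC0 (tM5 tM1 tM2 tM3 (tM4 tP2 tM4a)) tM6a tM6b
  have hQp : ∀ q ∈ sparse, q.Prime := fun q hq => hq.1
  obtain ⟨g', hg'⟩ := exists_unit g hg
  have := countable_poly
  have hall : ∀ᵐ ω ∂coins, ∀ (F : ℤ[X]), (¬ ∃ (c : ℤ) (G : ℤ[X]), F = C c * G ^ 2) →
      ∀ s a b : ℕ, ∀ f : ℕ →*₀ ℤ, IsModif g sparse ω f →
        Tendsto (fun x : ℕ => (∑ n ∈ (Icc 1 x).filter (fun n => n ≡ a [MOD b]), v s n *
          ((f (F.eval (n : ℤ)).natAbs : ℤ) : ℝ)) / x) atTop (nhds 0) := by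
    rw [ae_all_iff]; intro F
    by_cases hF : ∃ (c : ℤ) (G : ℤ[X]), F = C c * G ^ 2
    · filter_upwards with ω h
      exact absurd hF h
    · obtain ⟨P, H, k, hP, hd, hPH, hFe⟩ := factor F hF
      have h1 : ∀ᵐ ω ∂coins, ∀ s a b : ℕ, ∀ f : ℕ →*₀ ℤ, IsModif g sparse ω f →
          Tendsto (fun x : ℕ => (∑ n ∈ (Icc 1 x).filter (fun n => n ≡ a [MOD b]), v s n *
            ((f (F.eval (n : ℤ)).natAbs : ℤ) : ℝ)) / x) atTop (nhds 0) := by
        rw [ae_all_iff]; intro s
        rw [ae_all_iff]; intro a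
        rw [ae_all_iff]; intro b
        filter_upwards [asWeight hM6 g g' hg' sparse hQp (P * H) (thick_sparse P H hP hd hPH)
          (fun n => if n ≡ a [MOD b] then v s n else 0) (fun n => by
            beta_reduce
            split_ifs
            · exact hv s n
            · simp)] with ω hω f hf
        refine (hω f hf).congr fun x => ?_
        obtain ⟨f', hf', hfm⟩ := isModif_exists g g' hg' sparse ω
        have hff : f = f' := isModif_unique g sparse ω f f' hf hf'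
        subst hff
        congr 1
        rw [Finset.sum_filter]
        apply Finset.sum_congr rfl
        intro n _
        beta_reduce
        rw [hFe, eval_reduce f _ hfm]
        split_ifs
        · rfl
        · rw [zero_mul]
      filter_upwards [h1] with ω hω _
      exact hω
  filter_upwards [hall] with ω hω
  obtain ⟨f, hf, hfm⟩ := isModif_exists g g' hg' sparse ω
  exact ⟨f, ⟨hf, fun F hF s a b => hω F hF s a b f hf⟩,
    fun f' hf' => isModif_unique g sparse ω f' f hf'.1 hf⟩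

end Pool.Agent.TH573.SM
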