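import Pool.Agent.Helper256.KM.Mertens

/-!
A very sparse set of primes: the blocks `(T, T ^ (2 ^ i)]`, `T` the `i`-th iterated power of two.
-/

set_option autoImplicit false

namespace Pool.Agent.TH573.SM

open Finset Filter

/-- iterated powers of two: `1, 2, 4, 16, 65536, …` -/
def tower : ℕ → ℕ
  | 0 => 1
  | n + 1 => 2 ^ tower n

/-- the primes in the blocks `(T, T ^ (2 ^ i)]`, where `T` is the `i`-th iterated power of two -/
def sparse : Set ℕ := {q | q.Prime ∧ ∃ i, tower i < q ∧ q ≤ tower i ^ 2 ^ i}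

theorem tower_succ (n : ℕ) : tower (n + 1) = 2 ^ tower n := rfl

theorem lt_tower (n : ℕ) : n < tower n := by
  induction n with
  | zero => simp [tower]
  | succ n ih =>
    rw [tower_succ]
    have := Nat.lt_two_pow_self (n := tower n)
    omega

theorem tower_strictMono : StrictMono tower :=
  strictMono_nat_of_lt_succ fun n => by
    rw [tower_succ]
    exact Nat.lt_two_pow_self

theorem two_pow_le_tower {i : ℕ} (hi : 3 ≤ i) : 2 ^ (i + 1) ≤ tower i := by
  induction i, hi using Nat.le_induction with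
  | base => simp [tower]
  | succ i hi ih =>
    rw [tower_succ]
    apply Nat.pow_le_pow_right (by norm_num)
    have : i + 2 ≤ 2 ^ (i + 1) := by
      have := Nat.lt_two_pow_self (n := i + 1)
      omega
    omega

theorem sq_le_two_pow {t : ℕ} (ht : 4 ≤ t) : t * t ≤ 2 ^ t := by
  induction t, ht using Nat.le_induction with
  | base => norm_num
  | succ t ht ih =>
    rw [pow_succ]
    nlinarith

theorem block_le {i : ℕ} (hi : 4 ≤ i) : tower i ^ 2 ^ i ≤ tower (i + 1) := by
  obtain ⟨j, rfl⟩ : ∃ j, i = j + 1 := ⟨i - 1, by omega⟩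
  rw [tower_succ (j + 1), tower_succ j, ← pow_mul]
  apply Nat.pow_le_pow_right (by norm_num)
  have h1 := two_pow_le_tower (i := j) (by omega)
  have h2 : 4 ≤ tower j := by
    have := lt_tower j
    omega
  calc tower j * 2 ^ (j + 1) ≤ tower j * tower j := Nat.mul_le_mul_left _ h1
    _ ≤ 2 ^ tower j := sq_le_two_pow h2

theorem exists_index (y : ℕ) (hy : 2 ≤ y) : ∃ i, tower (i + 1) ≤ y ∧ y < tower (i + 2) := by
  have hex : ∃ n, y < tower n := ⟨y, lt_tower y⟩
  classical
  have h1 := Nat.find_spec hex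
  set n := Nat.find hex with hn
  have h2 : 2 ≤ n := by
    by_contra h
    have h3 : n ≤ 1 := by omega
    have h4 : tower n ≤ tower 1 := tower_strictMono.monotone h3
    have h5 : tower 1 = 2 := by simp [tower]
    omega
  refine ⟨n - 2, ?_, ?_⟩
  · have h3 := Nat.find_min hex (m := n - 2 + 1) (by omega)
    omega
  · have : n - 2 + 2 = n := by omega
    rwa [this]

theorem loglog_pow {T : ℕ} (hT : 2 ≤ T) (k : ℕ) :
    Real.log (Real.log ((T ^ 2 ^ k : ℕ) : ℝ)) = k * Real.log 2 + Real.log (Real.log T) := by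
  have hT' : (1 : ℝ) < T := by exact_mod_cast (by omega : 1 < T)
  have h1 : 0 < Real.log T := Real.log_pos hT'
  rw [Nat.cast_pow, Real.log_pow, Nat.cast_pow, Real.log_mul (by positivity) h1.ne', Real.log_pow]
  norm_num

theorem sum_biUnion_le' {ι : Type*} [DecidableEq ι] (s : Finset ι) (f : ι → Finset ℕ)
    (g : ℕ → ℝ) (hg : ∀ q, 0 ≤ g q) : ∑ q ∈ s.biUnion f, g q ≤ ∑ i ∈ s, ∑ q ∈ f i, g q := by
  classical
  induction s using Finset.induction_on with
  | empty => simp
  | insert a s ha ih =>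
    rw [Finset.biUnion_insert, Finset.sum_insert ha]
    have h1 : ∑ q ∈ f a ∪ s.biUnion f, g q ≤ ∑ q ∈ f a, g q + ∑ q ∈ s.biUnion f, g q := by
      rw [← Finset.sum_union_inter]
      have : 0 ≤ ∑ q ∈ f a ∩ s.biUnion f, g q := Finset.sum_nonneg fun q _ => hg q
      linarith
    linarith

/-- the sum of the reciprocals of the members of `sparse` up to the `n`-th iterated power of two
is `O(n ^ 2)` -/
theorem sparse_sum : ∃ C : ℝ, ∀ n : ℕ,
    (∑ q ∈ (Icc 1 (tower n)).filter (fun q => ∃ i, i < n ∧ q.Prime ∧ tower i < q ∧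
      q ≤ tower i ^ 2 ^ i), (1 : ℝ) / q) ≤ C * n ^ 2 := by
  classical
  obtain ⟨C0, hC0⟩ := Pool.Agent.Helper256.KM.mertens_inv
  have hC00 : 0 ≤ C0 := (abs_nonneg _).trans (hC0 3 le_rfl)
  -- one block
  have hblock : ∀ i : ℕ, ∑ q ∈ (Icc 1 (tower i ^ 2 ^ i)).filter (fun q => q.Prime ∧ tower i < q),
      (1 : ℝ) / q ≤ i + (2 * C0 + 2) := by
    intro i
    by_cases hi : 2 ≤ i
    · have hT : 4 ≤ tower i := by
        have h1 : tower 2 ≤ tower i := tower_strictMono.monotone hi
        have h2 : tower 2 = 4 := by simp [tower]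
        omega
      have hle : tower i ≤ tower i ^ 2 ^ i := Nat.le_self_pow (by positivity) _
      have h1 := (abs_le.1 (hC0 (tower i ^ 2 ^ i) (by omega))).2
      have h2 := (abs_le.1 (hC0 (tower i) (by omega))).1
      rw [loglog_pow (by omega)] at h1
      have h3 : ∑ q ∈ (Icc 1 (tower i ^ 2 ^ i)).filter Nat.Prime, (1 : ℝ) / q =
          ∑ q ∈ (Icc 1 (tower i)).filter Nat.Prime, (1 : ℝ) / q +
          ∑ q ∈ (Icc 1 (tower i ^ 2 ^ i)).filter (fun q => q.Prime ∧ tower i < q),
            (1 : ℝ) / q := by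
        rw [← Finset.sum_filter_add_sum_filter_not ((Icc 1 (tower i ^ 2 ^ i)).filter Nat.Prime)
          (fun q => q ≤ tower i)]
        congr 1
        · apply Finset.sum_congr _ (fun _ _ => rfl)
          ext q
          simp only [mem_filter, mem_Icc]
          constructor
          · rintro ⟨⟨⟨a, b⟩, c⟩, d⟩
            exact ⟨⟨a, d⟩, c⟩
          · rintro ⟨⟨a, b⟩, c⟩
            exact ⟨⟨⟨a, b.trans hle⟩, c⟩, b⟩
        · apply Finset.sum_congr _ (fun _ _ => rfl)
          ext q
          simp only [mem_filter, mem_Icc, not_le]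
          tauto
      have h4 : Real.log 2 ≤ 1 := by
        have := Real.log_two_lt_d9
        linarith
      have h5 : (i : ℝ) * Real.log 2 ≤ i := by
        nlinarith [(Nat.cast_nonneg i : (0 : ℝ) ≤ i)]
      linarith
    · have h0 : tower i ^ 2 ^ i ≤ 4 := by
        interval_cases i <;> simp [tower]
      have h1 : ∑ q ∈ (Icc 1 (tower i ^ 2 ^ i)).filter (fun q => q.Prime ∧ tower i < q),
          (1 : ℝ) / q ≤ ∑ q ∈ (Icc 1 4).filter Nat.Prime, (1 : ℝ) / q := by
        apply Finset.sum_le_sum_of_subset_of_nonneg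
        · intro q hq
          simp only [mem_filter, mem_Icc] at hq ⊢
          exact ⟨⟨hq.1.1, hq.1.2.trans h0⟩, hq.2.1⟩
        · intro q _ _
          positivity
      have h2 : ∑ q ∈ (Icc 1 4).filter Nat.Prime, (1 : ℝ) / q ≤ 2 := by
        have : (Icc 1 4).filter Nat.Prime = {2, 3} := by decide
        rw [this]
        norm_num
      have h3 : (0 : ℝ) ≤ i := Nat.cast_nonneg i
      linarith
  refine ⟨2 * C0 + 3, fun n => ?_⟩
  have h1 : ∑ q ∈ (Icc 1 (tower n)).filter (fun q => ∃ i, i < n ∧ q.Prime ∧ tower i < q ∧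
      q ≤ tower i ^ 2 ^ i), (1 : ℝ) / q ≤
      ∑ i ∈ range n, ∑ q ∈ (Icc 1 (tower i ^ 2 ^ i)).filter (fun q => q.Prime ∧ tower i < q),
        (1 : ℝ) / q := by
    have hsub : (Icc 1 (tower n)).filter (fun q => ∃ i, i < n ∧ q.Prime ∧ tower i < q ∧
        q ≤ tower i ^ 2 ^ i) ⊆ (range n).biUnion (fun i =>
          (Icc 1 (tower i ^ 2 ^ i)).filter (fun q => q.Prime ∧ tower i < q)) := by
      intro q hq
      rw [mem_filter, mem_Icc] at hq
      obtain ⟨⟨h1, _⟩, i, hi, hp, h2, h3⟩ := hq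
      rw [mem_biUnion]
      exact ⟨i, mem_range.2 hi, by rw [mem_filter, mem_Icc]; exact ⟨⟨h1, h3⟩, hp, h2⟩⟩
    refine (Finset.sum_le_sum_of_subset_of_nonneg hsub (fun q _ _ => by positivity)).trans ?_
    exact sum_biUnion_le' _ _ _ (fun q => by positivity)
  refine h1.trans ?_
  have h2 : ∑ i ∈ range n, ∑ q ∈ (Icc 1 (tower i ^ 2 ^ i)).filter
      (fun q => q.Prime ∧ tower i < q), (1 : ℝ) / q ≤ ∑ i ∈ range n, ((n : ℝ) + (2 * C0 + 2)) := by
    apply Finset.sum_le_sum
    intro i hi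
    have h3 : (i : ℝ) ≤ n := by exact_mod_cast (mem_range.1 hi).le
    linarith [hblock i]
  refine h2.trans ?_
  rw [Finset.sum_const, card_range, nsmul_eq_mul]
  rcases Nat.eq_zero_or_pos n with rfl | hn
  · simp
  · have h3 : (1 : ℝ) ≤ n := by exact_mod_cast hn
    nlinarith [mul_nonneg (by linarith : (0 : ℝ) ≤ n) (by linarith : (0 : ℝ) ≤ n - 1)]

end Pool.Agent.TH573.SM
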