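import Pool.Agent.TH573.SM.Fact
import Pool.Agent.TH573.SM.Tower
import Pool.Agent.H474R2.GE.FA
import Pool.Agent.H220M.Base4

/-!
The primes of `sparse` modulo which a given polynomial has a simple root are thick.
-/

set_option autoImplicit false

namespace Pool.Agent.TH573.SM

open Polynomial Finset Filter
open Pool.Agent.H220M Pool.Agent.H474R2.PG

open Classical in
/-- the primes between `a` and `b` modulo which `P` has a root -/
theorem root_sum (P : ℤ[X]) (hP : Irreducible P) (hd : 0 < P.natDegree) :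
    ∃ C : ℝ, 0 ≤ C ∧ ∃ B : ℕ, ∀ a b : ℕ, B ≤ a → a ≤ b →
      Real.log (Real.log b) - Real.log (Real.log a) - C ≤ P.natDegree *
        ∑ q ∈ (Icc 1 b).filter (fun q => q.Prime ∧ a < q ∧ rho P q ≠ 0), (1 : ℝ) / q := by
  obtain ⟨C, hC, h⟩ := Pool.Agent.H474R2.GE.mertens_rho P hP hd
  obtain ⟨B, hB⟩ := rho_le P hP.ne_zero
  refine ⟨2 * C, by positivity, max B 3, fun a b ha hab => ?_⟩
  have ha3 : 3 ≤ a := (le_max_right _ _).trans ha
  have haB : B ≤ a := (le_max_left _ _).trans ha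
  have h1 := (abs_le.1 (h b (by exact_mod_cast ha3.trans hab))).1
  have h2 := (abs_le.1 (h a (by exact_mod_cast ha3))).2
  have e1 : Sg (rho P) b = Sg (rho P) a +
      ∑ q ∈ (Icc 1 b).filter (fun q => q.Prime ∧ a < q), (rho P q : ℝ) / q := by
    unfold Sg PR
    rw [Nat.floor_natCast, Nat.floor_natCast,
      ← Finset.sum_filter_add_sum_filter_not ((Icc 1 b).filter Nat.Prime) (fun q => q ≤ a)]
    congr 1
    · apply Finset.sum_congr _ (fun _ _ => rfl)
      ext q
      simp only [mem_filter, mem_Icc]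
      constructor
      · rintro ⟨⟨⟨a, b⟩, c⟩, d⟩
        exact ⟨⟨a, d⟩, c⟩
      · rintro ⟨⟨a, b⟩, c⟩
        exact ⟨⟨⟨a, b.trans hab⟩, c⟩, b⟩
    · apply Finset.sum_congr _ (fun _ _ => rfl)
      ext q
      simp only [mem_filter, mem_Icc, not_le]
      tauto
  have e2 : ∑ q ∈ (Icc 1 b).filter (fun q => q.Prime ∧ a < q), (rho P q : ℝ) / q ≤
      P.natDegree * ∑ q ∈ (Icc 1 b).filter (fun q => q.Prime ∧ a < q ∧ rho P q ≠ 0),
        (1 : ℝ) / q := by
    rw [Finset.mul_sum]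
    have e3 : ∑ q ∈ (Icc 1 b).filter (fun q => q.Prime ∧ a < q), (rho P q : ℝ) / q =
        ∑ q ∈ (Icc 1 b).filter (fun q => q.Prime ∧ a < q ∧ rho P q ≠ 0), (rho P q : ℝ) / q := by
      symm
      apply Finset.sum_subset
      · intro q hq
        rw [mem_filter] at hq ⊢
        exact ⟨hq.1, hq.2.1, hq.2.2.1⟩
      · intro q hq hq'
        rw [mem_filter] at hq hq'
        have : rho P q = 0 := by
          by_contra h0
          exact hq' ⟨hq.1, hq.2.1, hq.2.2, h0⟩
        rw [this]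
        simp
    rw [e3]
    apply Finset.sum_le_sum
    intro q hq
    rw [mem_filter] at hq
    have h3 : (rho P q : ℝ) ≤ P.natDegree := by
      exact_mod_cast hB q hq.2.1 (by omega)
    rw [mul_one_div]
    exact div_le_div_of_nonneg_right h3 (by positivity)
  linarith

open Classical in
theorem block (P H : ℤ[X]) (hP : Irreducible P) (hd : 0 < P.natDegree) (hPH : ¬ P ∣ H) :
    ∃ C : ℝ, 0 ≤ C ∧ ∃ i0 : ℕ, ∀ i : ℕ, i0 ≤ i → ∀ m : ℕ, m ≤ i → ∀ y a : ℕ,
      tower i ^ 2 ^ i ≤ y → a ≤ tower i ^ 2 ^ m →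
      ((i : ℝ) - m) * Real.log 2 - C ≤ P.natDegree *
        ∑ q ∈ (Icc 1 y).filter (fun q => q ∈ {q | q ∈ sparse ∧ SimpleRoot (P * H) q} ∧ a < q),
          (1 : ℝ) / q := by
  obtain ⟨C, hC, B, h⟩ := root_sum P hP hd
  obtain ⟨B', hB'⟩ := simple_of_rho P H hP hd hPH
  refine ⟨C, hC, max (max B B') 2, fun i hi m hm y a hy ha => ?_⟩
  have hi1 : B ≤ i := (le_max_left _ _).trans ((le_max_left _ _).trans hi)
  have hi2 : B' ≤ i := (le_max_right _ _).trans ((le_max_left _ _).trans hi)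
  have hi3 : 2 ≤ i := (le_max_right _ _).trans hi
  have hT := lt_tower i
  have h1 : tower i ≤ tower i ^ 2 ^ m := Nat.le_self_pow (by positivity) _
  have h2 : tower i ^ 2 ^ m ≤ tower i ^ 2 ^ i :=
    Nat.pow_le_pow_right (by omega) (Nat.pow_le_pow_right (by norm_num) hm)
  have h3 := h (tower i ^ 2 ^ m) (tower i ^ 2 ^ i) (by omega) h2
  rw [loglog_pow (by omega), loglog_pow (by omega)] at h3
  have h4 : ∑ q ∈ (Icc 1 (tower i ^ 2 ^ i)).filter
      (fun q => q.Prime ∧ tower i ^ 2 ^ m < q ∧ rho P q ≠ 0), (1 : ℝ) / q ≤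
      ∑ q ∈ (Icc 1 y).filter (fun q => q ∈ {q | q ∈ sparse ∧ SimpleRoot (P * H) q} ∧ a < q),
          (1 : ℝ) / q := by
    apply Finset.sum_le_sum_of_subset_of_nonneg
    · intro q hq
      rw [mem_filter, mem_Icc] at hq ⊢
      obtain ⟨⟨h5, h6⟩, hp, h7, h8⟩ := hq
      refine ⟨⟨h5, h6.trans hy⟩, ⟨⟨hp, i, by omega, h6⟩, hB' q hp (by omega) h8⟩, by omega⟩
    · intro q _ _
      positivity
  have h5 : (0 : ℝ) ≤ P.natDegree := Nat.cast_nonneg _
  have h6 := mul_le_mul_of_nonneg_left h4 h5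
  linarith

/-- thickness -/
theorem thick_sparse (P H : ℤ[X]) (hP : Irreducible P) (hd : 0 < P.natDegree) (hPH : ¬ P ∣ H) :
    Thick {q | q ∈ sparse ∧ SimpleRoot (P * H) q} := by
  classical
  obtain ⟨C, hC, i0, h⟩ := block P H hP hd hPH
  unfold Thick
  rw [tendsto_atTop]
  intro b
  have hd' : (0 : ℝ) < P.natDegree := by exact_mod_cast hd
  have hl2 : (0 : ℝ) < Real.log 2 := Real.log_pos (by norm_num)
  obtain ⟨i1, hi1⟩ := exists_nat_ge ((b * P.natDegree + C) / Real.log 2 + 2)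
  rw [eventually_atTop]
  refine ⟨tower (max (max i0 i1) 4 + 1), fun y hy => ?_⟩
  set j := max (max i0 i1) 4 with hj
  have hj0 : i0 ≤ j := (le_max_left _ _).trans (le_max_left _ _)
  have hj1 : i1 ≤ j := (le_max_right _ _).trans (le_max_left _ _)
  have hj2 : 4 ≤ j := le_max_right _ _
  have hy2 : 2 ≤ y := by
    have := lt_tower (j + 1)
    omega
  obtain ⟨i, hi, hi'⟩ := exists_index y hy2
  have hji : j ≤ i := by
    by_contra hlt
    have h1 : tower (i + 2) ≤ tower (j + 1) := tower_strictMono.monotone (by omega)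
    omega
  -- it suffices to find a block
  suffices hs : ((i : ℝ) - 2) * Real.log 2 - C ≤ P.natDegree *
      ∑ q ∈ (Icc 1 y).filter (fun q => q ∈ {q | q ∈ sparse ∧ SimpleRoot (P * H) q} ∧
        (Nat.log 2 y) ^ 2 < q), (1 : ℝ) / q by
    have h1 : (b * P.natDegree + C) / Real.log 2 ≤ (i : ℝ) - 2 := by
      have h2 : (i1 : ℝ) ≤ i := by exact_mod_cast hj1.trans hji
      linarith
    rw [div_le_iff₀ hl2] at h1
    have h3 : (P.natDegree : ℝ) * b ≤ P.natDegree *
      ∑ q ∈ (Icc 1 y).filter (fun q => q ∈ {q | q ∈ sparse ∧ SimpleRoot (P * H) q} ∧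
        (Nat.log 2 y) ^ 2 < q), (1 : ℝ) / q := by linarith
    have h4 := le_of_mul_le_mul_left h3 hd'
    convert h4
  have hTi : 4 ≤ tower i := by
    have := lt_tower i
    omega
  by_cases hc : tower (i + 1) ^ 2 ^ (i + 1) ≤ y
  · have hlog : Nat.log 2 y < tower (i + 1) := by
      apply Nat.log_lt_of_lt_pow (by omega)
      rwa [← tower_succ]
    have h1 := h (i + 1) (by omega) 1 (by omega) y ((Nat.log 2 y) ^ 2) hc (by
      have : (2 : ℕ) ^ 1 = 2 := by norm_num
      rw [this]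
      exact Nat.pow_le_pow_left hlog.le 2)
    push_cast at h1
    nlinarith
  · have hc' : y < tower (i + 1) ^ 2 ^ (i + 1) := not_le.1 hc
    have hlog : Nat.log 2 y < tower i * 2 ^ (i + 1) := by
      apply Nat.log_lt_of_lt_pow (by omega)
      rwa [pow_mul, ← tower_succ]
    have h2 : tower i * 2 ^ (i + 1) ≤ tower i * tower i :=
      Nat.mul_le_mul_left _ (two_pow_le_tower (by omega))
    have h1 := h i (by omega) 2 (by omega) y ((Nat.log 2 y) ^ 2)
      ((block_le (by omega)).trans hi) (by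
        calc (Nat.log 2 y) ^ 2 ≤ (tower i * tower i) ^ 2 :=
              Nat.pow_le_pow_left (hlog.le.trans h2) 2
          _ = tower i ^ 2 ^ 2 := by ring)
    push_cast at h1
    exact h1

end Pool.Agent.TH573.SM
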