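import Pool.Agent.H220M.Base2
import Pool.Agent.H474R2.PG.Defs

/-!
Integer polynomials which are not a constant times a square: an irreducible factor of odd
multiplicity, and simple roots modulo primes.
-/

set_option autoImplicit false

namespace Pool.Agent.TH573.SM

open Polynomial Finset
open Pool.Agent.H220M Pool.Agent.H474R2.PG

theorem countable_poly : Countable ℤ[X] := by
  rw [← Cardinal.mk_le_aleph0_iff]
  refine (Polynomial.cardinalMk_le_max).trans ?_
  rw [Cardinal.mk_int, max_self]

/-- an irreducible factor of positive degree -/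
theorem exists_factor (F : ℤ[X]) (hF : 0 < F.natDegree) :
    ∃ P : ℤ[X], Irreducible P ∧ 0 < P.natDegree ∧ P ∣ F := by
  have hF0 : F ≠ 0 := by rintro rfl; simp at hF
  have h1 : F.primPart ≠ 0 := primPart_ne_zero F
  have h2 : ¬ IsUnit F.primPart := by
    intro h
    have := natDegree_eq_zero_of_isUnit h
    rw [natDegree_primPart] at this
    omega
  obtain ⟨P, hP, hPd⟩ := WfDvdMonoid.exists_irreducible_factor h2 h1
  refine ⟨P, hP, ?_, hPd.trans (primPart_dvd F)⟩
  by_contra h0
  have h0' : P.natDegree = 0 := by omega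
  obtain ⟨c, hc⟩ := natDegree_eq_zero.1 h0'
  have h3 : IsUnit c := (isPrimitive_iff_isUnit_of_C_dvd.1 (isPrimitive_primPart F)) c (hc ▸ hPd)
  apply hP.not_isUnit
  rw [← hc]
  exact isUnit_C.2 h3

theorem factor_aux (n : ℕ) : ∀ F : ℤ[X], F.natDegree ≤ n → F ≠ 0 →
    (∃ (c : ℤ) (G : ℤ[X]), F = C c * G ^ 2) ∨
    ∃ (P H : ℤ[X]) (k : ℕ), Irreducible P ∧ 0 < P.natDegree ∧ ¬ P ∣ H ∧
      F = P ^ (2 * k + 1) * H := by
  induction n with
  | zero =>
    intro F hn hF
    left
    obtain ⟨c, hc⟩ := natDegree_eq_zero.1 (Nat.le_zero.1 hn)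
    exact ⟨c, 1, by rw [← hc]; ring⟩
  | succ n ih =>
    intro F hn hF
    by_cases hd : F.natDegree = 0
    · left
      obtain ⟨c, hc⟩ := natDegree_eq_zero.1 hd
      exact ⟨c, 1, by rw [← hc]; ring⟩
    · obtain ⟨P, hP, hPd, hPF⟩ := exists_factor F (Nat.pos_of_ne_zero hd)
      have hfin : FiniteMultiplicity P F :=
        FiniteMultiplicity.of_not_isUnit hP.not_isUnit hF
      obtain ⟨H, hH, hPH⟩ := hfin.exists_eq_pow_mul_and_not_dvd
      set m := multiplicity P F with hm
      have hm0 : m ≠ 0 := by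
        intro h0
        rw [h0, pow_zero, one_mul] at hH
        rw [← hH] at hPH
        exact hPH hPF
      rcases Nat.even_or_odd m with he | ho
      · obtain ⟨k, hk⟩ := he
        have hk0 : 1 ≤ k := by omega
        have hH0 : H ≠ 0 := by rintro rfl; exact hPH (dvd_zero _)
        have hP0 : P ≠ 0 := hP.ne_zero
        have hdeg : H.natDegree ≤ n := by
          have h1 : F.natDegree = m * P.natDegree + H.natDegree := by
            conv_lhs => rw [hH]
            rw [natDegree_mul (pow_ne_zero _ hP0) hH0, natDegree_pow]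
          have h2 : 1 ≤ m * P.natDegree := Nat.mul_pos (by omega) hPd
          omega
        rcases ih H hdeg hH0 with ⟨c, G, hG⟩ | ⟨P', H', k', hP', hPd', hPH', hF'⟩
        · left
          refine ⟨c, P ^ k * G, ?_⟩
          rw [hH, hG, hk]
          ring
        · right
          refine ⟨P', P ^ m * H', k', hP', hPd', ?_, ?_⟩
          · intro h
            have hpr : Prime P' := hP'.prime
            rcases hpr.dvd_or_dvd h with h1 | h1
            · have h2 : P' ∣ P := hpr.dvd_of_dvd_pow h1
              have h3 : P ∣ P' := (hP'.dvd_irreducible_iff_associated hP).1 h2 |>.symm.dvd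
              apply hPH
              rw [hF']
              exact (h3.trans (dvd_pow_self _ (by omega))).mul_right _
            · exact hPH' h1
          · conv_lhs => rw [hH, hF']
            ring
      · obtain ⟨k, hk⟩ := ho
        right
        exact ⟨P, H, k, hP, hPd, hPH, by rw [hH, hk]⟩

theorem factor (F : ℤ[X]) (hF : ¬ ∃ (c : ℤ) (G : ℤ[X]), F = C c * G ^ 2) :
    ∃ (P H : ℤ[X]) (k : ℕ), Irreducible P ∧ 0 < P.natDegree ∧ ¬ P ∣ H ∧
      F = P ^ (2 * k + 1) * H := by
  have hF0 : F ≠ 0 := by
    rintro rfl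
    exact hF ⟨0, 0, by simp⟩
  rcases factor_aux _ F le_rfl hF0 with h | h
  · exact absurd h hF
  · exact h

/-- Bezout with denominators -/
theorem bezout (P D : ℤ[X]) (h : IsCoprime (P.map (Int.castRingHom ℚ)) (D.map (Int.castRingHom ℚ))) :
    ∃ (U V : ℤ[X]) (R : ℤ), R ≠ 0 ∧ U * P + V * D = C R := by
  obtain ⟨u, v, huv⟩ := h
  obtain ⟨b, hb, hbu⟩ := IsLocalization.integerNormalization_spec (nonZeroDivisors ℤ) u
  obtain ⟨c, hc, hcv⟩ := IsLocalization.integerNormalization_spec (nonZeroDivisors ℤ) v
  set U := IsLocalization.integerNormalization (nonZeroDivisors ℤ) u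
  set V := IsLocalization.integerNormalization (nonZeroDivisors ℤ) v
  have hb0 : b ≠ 0 := nonZeroDivisors.ne_zero hb
  have hc0 : c ≠ 0 := nonZeroDivisors.ne_zero hc
  refine ⟨C c * U, C b * V, b * c, mul_ne_zero hb0 hc0, ?_⟩
  apply Polynomial.map_injective (Int.castRingHom ℚ) Int.cast_injective
  have e1 : U.map (Int.castRingHom ℚ) = C (b : ℚ) * u := by
    have : U.map (Int.castRingHom ℚ) = b • u := hbu
    rw [this, zsmul_eq_mul]
    simp
  have e2 : V.map (Int.castRingHom ℚ) = C (c : ℚ) * v := by
    have : V.map (Int.castRingHom ℚ) = c • v := hcv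
    rw [this, zsmul_eq_mul]
    simp
  rw [Polynomial.map_add, Polynomial.map_mul, Polynomial.map_mul, Polynomial.map_mul,
    Polynomial.map_mul, Polynomial.map_C, Polynomial.map_C, Polynomial.map_C, e1, e2, eq_intCast,
    eq_intCast, eq_intCast]
  have : C (c : ℚ) * (C (b : ℚ) * u) * P.map (Int.castRingHom ℚ) +
      C (b : ℚ) * (C (c : ℚ) * v) * D.map (Int.castRingHom ℚ) =
      C (b : ℚ) * C (c : ℚ) * (u * P.map (Int.castRingHom ℚ) + v * D.map (Int.castRingHom ℚ)) := by
    ring
  rw [this, huv, mul_one, ← C_mul]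
  push_cast
  rfl

/-- an irreducible polynomial that does not divide `H` has simple roots modulo large primes,
where `P * H` also has a simple root -/
theorem simple_of_rho (P H : ℤ[X]) (hP : Irreducible P) (hd : 0 < P.natDegree) (hPH : ¬ P ∣ H) :
    ∃ B : ℕ, ∀ p : ℕ, p.Prime → B < p → rho P p ≠ 0 → SimpleRoot (P * H) p := by
  have hprim : P.IsPrimitive := hP.isPrimitive hd.ne'
  have hirr : Irreducible (P.map (Int.castRingHom ℚ)) :=
    (IsPrimitive.Int.irreducible_iff_irreducible_map_cast hprim).1 hP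
  have hcop : IsCoprime (P.map (Int.castRingHom ℚ))
      ((derivative P * H).map (Int.castRingHom ℚ)) := by
    rw [Irreducible.coprime_iff_not_dvd hirr]
    intro h
    rw [Polynomial.map_mul] at h
    rcases hirr.prime.dvd_or_dvd h with h1 | h1
    · have h2 := (IsPrimitive.Int.dvd_iff_map_cast_dvd_map_cast P (derivative P) hprim).2 h1
      have h3 : derivative P ≠ 0 := by
        intro h0
        have := derivative_eq_zero.1 h0
        omega
      have h4 := natDegree_le_of_dvd h2 h3
      have h5 := natDegree_derivative_lt hd.ne'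
      omega
    · exact hPH ((IsPrimitive.Int.dvd_iff_map_cast_dvd_map_cast P H hprim).2 h1)
  obtain ⟨U, V, R, hR, hUV⟩ := bezout P _ hcop
  refine ⟨R.natAbs, fun p hp hB hrho => ?_⟩
  have hpp : Prime (p : ℤ) := Nat.prime_iff_prime_int.mp hp
  have hne : ((range p).filter (fun a : ℕ => (p : ℤ) ∣ P.eval (a : ℤ))).Nonempty := by
    rw [← Finset.card_pos]
    exact Nat.pos_of_ne_zero hrho
  obtain ⟨a, ha⟩ := hne
  have hdv : (p : ℤ) ∣ P.eval (a : ℤ) := (mem_filter.1 ha).2
  refine ⟨a, ?_, ?_⟩
  · rw [eval_mul]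
    exact hdv.mul_right _
  · intro h
    have e1 : (derivative (P * H)).eval (a : ℤ) =
        (derivative P * H).eval (a : ℤ) + P.eval (a : ℤ) * (derivative H).eval (a : ℤ) := by
      rw [derivative_mul, eval_add, eval_mul (p := P)]
    have h1 : (p : ℤ) ∣ (derivative P * H).eval (a : ℤ) := by
      have h2 := dvd_sub h (hdv.mul_right ((derivative H).eval (a : ℤ)))
      rw [e1] at h2
      simpa using h2
    have h3 : (p : ℤ) ∣ R := by
      have h4 : (U * P + V * (derivative P * H)).eval (a : ℤ) = R := by rw [hUV, eval_C]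
      rw [← h4, eval_add, eval_mul (p := U), eval_mul (p := V)]
      exact dvd_add (hdv.mul_left _) (h1.mul_left _)
    have h5 : p ≤ R.natAbs := by
      have := Int.natAbs_le_of_dvd_ne_zero h3 hR
      simpa using this
    omega

end Pool.Agent.TH573.SM
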